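import Pool.Agent.TH32.H.Lim
import Pool.Agent.H260TZ.Lim2

set_option autoImplicit false

/-! The topological zeta function from the blocks. -/

namespace Pool.Agent.TH772.TZH

open Polynomial Filter Topology Pool.Agent.H260TZ Pool.Agent.TH32

/-- the rational prefactor -/
def kq {F : Type} [Field F] (q : F) (p : PB) : F :=
  (p.m : F) * (1 - q⁻¹) ^ p.u * (1 - 2 * q⁻¹) ^ p.u2 * (1 - 3 * q⁻¹) ^ p.u3

/-- the sum over the blocks -/
noncomputable def tot {F : Type} [Field F] (q x : F) (L : List PB) : F :=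
  (L.map (fun p => kq q p * (p.L.map (fun t => t.val q x)).sum)).sum

lemma tm_cast {F : Type} [Field F] [CharZero F] (q x : ℚ) (t : Tm) :
    ((t.val q x : ℚ) : F) = t.val (q : F) (x : F) := by
  have h : ∀ ds : List (ℤ × ℤ), (((ds.map (fun d => 1 - q ^ d.1 * x ^ d.2)).prod : ℚ) : F) =
      (ds.map (fun d => 1 - (q : F) ^ d.1 * (x : F) ^ d.2)).prod := by
    intro ds
    induction ds with
    | nil => simp
    | cons d ds ih =>
      rw [List.map_cons, List.prod_cons, List.map_cons, List.prod_cons, Rat.cast_mul, ih]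
      push_cast
      rfl
  unfold Tm.val
  rw [Rat.cast_div, h]
  push_cast
  rfl

lemma tms_cast {F : Type} [Field F] [CharZero F] (q x : ℚ) (L : List Tm) :
    (((L.map (fun t => t.val q x)).sum : ℚ) : F) =
      (L.map (fun t => t.val (q : F) (x : F))).sum := by
  induction L with
  | nil => simp
  | cons t L ih => simp only [List.map_cons, List.sum_cons, Rat.cast_add, ih, tm_cast]

lemma tot_cast {F : Type} [Field F] [CharZero F] (q x : ℚ) (L : List PB) :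
    ((tot q x L : ℚ) : F) = tot (q : F) (x : F) L := by
  unfold tot
  induction L with
  | nil => simp
  | cons p L ih =>
    simp only [List.map_cons, List.sum_cons, Rat.cast_add, ih, Rat.cast_mul, tms_cast]
    congr 2
    unfold kq
    push_cast
    rfl

/-- a rational function for all blocks together -/
lemma ratL (hR : RatStmt) (q : ℕ) (s : ℤ) (hq : 2 ≤ q) (L : List PB)
    (hL : ∀ p ∈ L, p.ok ∧ ∀ t ∈ p.L, t.reg s) :
    ∃ P Q : ℚ[X], Q.eval ((q : ℚ) ^ (-s)) ≠ 0 ∧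
      P.eval ((q : ℚ) ^ (-s)) / Q.eval ((q : ℚ) ^ (-s)) = tot (q : ℚ) ((q : ℚ) ^ (-s)) L ∧
      ∀ x : ℝ, 0 < x → x ≤ ((q : ℝ)⁻¹) ^ 5 → aeval x Q ≠ 0 ∧
        aeval x P / aeval x Q = (L.map (fun p => p.val q x)).sum := by
  induction L with
  | nil =>
    refine ⟨0, 1, ?_, ?_, fun x _ _ => ⟨?_, ?_⟩⟩ <;> simp [tot]
  | cons p L ih =>
    obtain ⟨P, Q, h1, h2, h3⟩ := ih (fun p' hp' => hL p' (List.mem_cons_of_mem _ hp'))
    obtain ⟨hok, hreg⟩ := hL p List.mem_cons_self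
    obtain ⟨P', Q', h1', h2', h3'⟩ := hR q s p.L hq hok.1 hreg
    refine ⟨C (kq (q : ℚ) p) * P' * Q + P * Q', Q' * Q, ?_, ?_, ?_⟩
    · rw [eval_mul]
      exact mul_ne_zero h1' h1
    · unfold tot at h2 ⊢
      rw [List.map_cons, List.sum_cons, ← h2, ← h2', eval_mul, eval_add, eval_mul, eval_mul,
        eval_mul, eval_C]
      field_simp
    · intro x hx hx5
      obtain ⟨h4, h5⟩ := h3 x hx hx5
      obtain ⟨h4', h5'⟩ := h3' x hx hx5
      refine ⟨by rw [map_mul]; exact mul_ne_zero h4' h4, ?_⟩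
      rw [List.map_cons, List.sum_cons, ← h5]
      have h6 : p.val q x = kq (q : ℝ) p * (aeval x P' / aeval x Q') := by
        rw [h5']
        rfl
      have h7 : ((kq (q : ℚ) p : ℚ) : ℝ) = kq (q : ℝ) p := by
        unfold kq
        push_cast
        rfl
      rw [h6, map_mul, map_add, map_mul, map_mul, map_mul, aeval_C, eq_ratCast, h7]
      field_simp

lemma zval (hI : IdxPowStmt) (hR : RatStmt) (L : List PB) (hLoc : Loc L) (p : ℕ) [Fact p.Prime]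
    (n : ℕ) (hn : n ≠ 0) (h3 : 3 ≤ p ^ n) (s : ℤ) (hL : ∀ p ∈ L, p.ok ∧ ∀ t ∈ p.L, t.reg s) :
    ZVal cH (WittVector p (GaloisField p n)) (p ^ n) s
      ((1 - ((p ^ n : ℕ) : ℚ)⁻¹) ^ 4 * tot ((p ^ n : ℕ) : ℚ) (((p ^ n : ℕ) : ℚ) ^ (-s)) L) := by
  obtain ⟨P, Q, h1, h2, h4⟩ := ratL hR (p ^ n) s (by omega) L hL
  refine ⟨P, Q, 5, ?_, h1, by rw [h2]⟩
  intro σ hσ
  set D := DV.witt p n hn with hD
  have hDq : D.q = p ^ n := rfl
  have hq := D.q1
  have hq0 := D.q0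
  have hx : 0 < (D.q : ℝ) ^ (-σ) := Real.rpow_pos_of_pos hq0 _
  have hx5 : (D.q : ℝ) ^ (-σ) ≤ ((D.q : ℝ)⁻¹) ^ 5 := by
    rw [inv_pow, ← Real.rpow_natCast, ← Real.rpow_neg hq0.le]
    refine Real.rpow_le_rpow_of_exponent_le hq.le ?_
    push_cast
    linarith
  obtain ⟨h5, h6⟩ := h4 _ hx hx5
  refine ⟨h5, ?_⟩
  have h7 := hLoc (WittVector p (GaloisField p n)) D _ h3 hx hx5
  rw [hDq] at h7 h6
  rw [h6]
  refine h7.congr_fun ?_
  intro U
  obtain ⟨w, hw⟩ := hI (WittVector p (GaloisField p n)) D U.1 U.2.2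
  have hw' : Nat.card ((Fin 4 → WittVector p (GaloisField p n)) ⧸ U.1) = (p ^ n) ^ w := hw
  rw [hw', Nat.log_pow (by omega)]
  have hqr : (0 : ℝ) ≤ ((p ^ n : ℕ) : ℝ) := Nat.cast_nonneg _
  rw [Nat.cast_pow (p ^ n) w, ← Real.rpow_natCast, ← Real.rpow_natCast, ← Real.rpow_mul hqr,
    ← Real.rpow_mul hqr, mul_comm]

theorem topAsm : TopAsm := by
  intro hI hR hLim L hok hLoc N Dn H hDn hH hlim
  refine ⟨hDn, H ∪ {s : ℤ | ∃ p ∈ L, ∃ t ∈ p.L, ∃ d ∈ t.ds, (d.2 : ℚ) * s - d.1 = 0}, ?_, ?_⟩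
  · refine hH.union ?_
    have hfin : (⋃ p ∈ {p | p ∈ L}, ⋃ t ∈ {t | t ∈ p.L}, ⋃ d ∈ {d | d ∈ t.ds},
        {s : ℤ | (d.2 : ℚ) * s - d.1 = 0}).Finite := by
      refine Set.Finite.biUnion (List.finite_toSet L) fun p hp => ?_
      refine Set.Finite.biUnion (List.finite_toSet p.L) fun t ht => ?_
      refine Set.Finite.biUnion (List.finite_toSet t.ds) fun d hd => ?_
      have hd1 : okd d = true := by
        have := ((hok p hp).1 t ht).2
        rw [List.all_eq_true] at this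
        exact this d hd
      refine Set.Subsingleton.finite ?_
      intro s hs s' hs'
      simp only [Set.mem_ofPred_eq] at hs hs'
      simp only [okd, Bool.or_eq_true, Bool.and_eq_true, decide_eq_true_eq] at hd1
      rcases hd1 with ⟨h2, h1⟩ | ⟨h2, h1⟩
      · rw [h2] at hs
        have : (d.1 : ℚ) = 0 := by push_cast at hs; linarith
        have h3 : d.1 = 0 := by exact_mod_cast this
        omega
      · have h3 : (d.2 : ℚ) ≠ 0 := by
          have : d.2 ≠ 0 := by omega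
          exact_mod_cast this
        have h4 : (d.2 : ℚ) * s = d.2 * s' := by linarith
        have h5 := mul_left_cancel₀ h3 h4
        exact_mod_cast h5
    refine hfin.subset ?_
    rintro s ⟨p, hp, t, ht, d, hd, h⟩
    simp only [Set.mem_iUnion]
    exact ⟨p, hp, t, ht, d, hd, h⟩
  intro ℓ hℓ
  refine ⟨{ℓ, 2}, by simp, ?_⟩
  intro p hp hpS
  have hpℓ : p ≠ ℓ := fun h => hpS (by simp [h])
  have hp2 : p ≠ 2 := fun h => hpS (by simp [h])
  have hℓ2 : 2 ≤ ℓ := (Fact.out : ℓ.Prime).two_le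
  have hp3 : 3 ≤ p := by
    have := (Fact.out : p.Prime).two_le
    omega
  refine ⟨ℓ - 1, by omega, ?_⟩
  intro s hs
  have hsH : s ∉ H := fun h => hs (Or.inl h)
  have hreg : ∀ p ∈ L, p.ok ∧ ∀ t ∈ p.L, t.reg s := by
    intro p' hp'
    refine ⟨hok p' hp', fun t ht d hd h => hs (Or.inr ⟨p', hp', t, ht, d, hd, h⟩)⟩
  obtain ⟨hD0, hval⟩ := hlim s hsH
  refine ⟨hD0, ?_⟩
  intro ε hε
  have ht := hLim ℚ_[ℓ] s L hreg
  rw [Metric.tendsto_nhdsWithin_nhds] at ht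
  obtain ⟨δ, hδ, hball⟩ := ht ε hε
  obtain ⟨m, hm⟩ : ∃ m : ℕ, (ℓ : ℝ) ^ (-((m + 1 : ℕ) : ℤ)) < δ := by
    obtain ⟨m, hm⟩ := exists_pow_lt_of_lt_one hδ (y := ((ℓ : ℝ))⁻¹)
      (inv_lt_one_of_one_lt₀ (by exact_mod_cast hℓ2))
    refine ⟨m, ?_⟩
    rw [zpow_neg, zpow_natCast, ← inv_pow]
    refine lt_of_le_of_lt ?_ hm
    exact pow_le_pow_of_le_one (by positivity) (inv_le_one_of_one_le₀
      (by exact_mod_cast (by omega : 1 ≤ ℓ))) (Nat.le_succ m)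
  refine ⟨m, ?_⟩
  intro f hf hdvd
  have hn : (ℓ - 1) * f ≠ 0 := by
    apply mul_ne_zero <;> omega
  have hq3 : 3 ≤ p ^ ((ℓ - 1) * f) := hp3.trans (Nat.le_self_pow hn p)
  have hq1Q : (1 : ℚ) < ((p ^ ((ℓ - 1) * f) : ℕ) : ℚ) := by
    have : 1 < p ^ ((ℓ - 1) * f) := by omega
    exact_mod_cast this
  refine ⟨_, zval hI hR L hLoc p ((ℓ - 1) * f) hn hq3 s hreg, ?_⟩
  have hne : (((p ^ ((ℓ - 1) * f) : ℕ) : ℚ) : ℚ_[ℓ]) ∈ ({1}ᶜ : Set ℚ_[ℓ]) := by
    intro h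
    have h2 : (((p ^ ((ℓ - 1) * f) : ℕ) : ℚ) : ℚ_[ℓ]) = 1 := h
    have h3 : ((p ^ ((ℓ - 1) * f) : ℕ) : ℚ) = 1 := by exact_mod_cast h2
    linarith
  have hd : dist ((((p ^ ((ℓ - 1) * f) : ℕ) : ℚ) : ℚ_[ℓ])) 1 < δ := by
    rw [dist_eq_norm]
    refine lt_of_le_of_lt ?_ hm
    have := norm_pow_sub ℓ p hpℓ m f hdvd
    push_cast at this ⊢
    exact this
  have hfin := hball hne hd
  rw [dist_eq_norm] at hfin
  rw [← hval, Rat.cast_sub, Rat.cast_mul, tot_cast]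
  have e1 : (((1 - ((p ^ ((ℓ - 1) * f) : ℕ) : ℚ)⁻¹) ^ 4 : ℚ) : ℚ_[ℓ]) =
      (1 - (((p ^ ((ℓ - 1) * f) : ℕ) : ℚ) : ℚ_[ℓ])⁻¹) ^ 4 := by
    push_cast
    rfl
  have e2 : (((((p ^ ((ℓ - 1) * f) : ℕ) : ℚ) ^ (-s) : ℚ)) : ℚ_[ℓ]) =
      (((p ^ ((ℓ - 1) * f) : ℕ) : ℚ) : ℚ_[ℓ]) ^ (-s) := Rat.cast_zpow _ _
  rw [e1, e2]
  exact hfin

end Pool.Agent.TH772.TZH
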