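import Pool.Agent.TH625.GM.Props

/-!
# GM-POISSON2 (job 692 for helper625, MP_17f4cb_nt)

Poisson summation for complex Gaussians on `ℤ²`, from two applications of the functional equation of
the two-variable Jacobi theta function.
-/

set_option autoImplicit false

open Complex MeasureTheory
open scoped Real

namespace Pool.Agent.TH772.J692

open Pool.Agent.TH625.GM

/-! ### Real Gaussians are summable -/

theorem summable_gauss1 (c α : ℝ) (hc : 0 < c) :
    Summable (fun m : ℤ => Real.exp (-c * (α + m) ^ 2)) := by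
  have h := (summable_jacobiTheta₂_term_iff ((c * α / π : ℝ) * I) ((c / π : ℝ) * I)).2 (by
    simp only [mul_im, ofReal_re, I_im, mul_one, ofReal_im, I_re, mul_zero, add_zero]
    positivity)
  have h2 := h.norm.mul_left (Real.exp (-c * α ^ 2))
  refine h2.congr fun m => ?_
  rw [norm_jacobiTheta₂_term, ← Real.exp_add]
  congr 1
  simp only [mul_im, ofReal_re, I_im, mul_one, ofReal_im, I_re, mul_zero, add_zero]
  field_simp
  ring

theorem summable_gauss2 (c α β : ℝ) (hc : 0 < c) :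
    Summable (fun p : ℤ × ℤ => Real.exp (-c * ((α + p.1) ^ 2 + (β + p.2) ^ 2))) := by
  have h := (summable_gauss1 c α hc).mul_of_nonneg (summable_gauss1 c β hc)
    (fun _ => (Real.exp_pos _).le) (fun _ => (Real.exp_pos _).le)
  refine h.congr fun p => ?_
  rw [← Real.exp_add]
  congr 1
  ring

/-- a positive definite binary form is bounded below -/
theorem form_lower (a b c x y : ℝ) (ha : 0 < a) (h : b ^ 2 < a * c) :
    (a * c - b ^ 2) / (a + c) * (x ^ 2 + y ^ 2) ≤ a * x ^ 2 + 2 * b * x * y + c * y ^ 2 := by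
  have hc : 0 < c := by
    by_contra hc
    push Not at hc
    nlinarith [sq_nonneg b, mul_nonneg ha.le (neg_nonneg.2 hc)]
  have hac : 0 < a + c := by linarith
  rw [div_mul_eq_mul_div, div_le_iff₀ hac]
  nlinarith [sq_nonneg (a * x + b * y), sq_nonneg (b * x + c * y)]

theorem norm_exp_pi (w : ℂ) : ‖cexp (π * I * w)‖ = Real.exp (-π * w.im) := by
  rw [Complex.norm_exp]
  congr 1
  simp only [mul_re, ofReal_re, I_re, mul_zero, ofReal_im, I_im, mul_one, sub_self, zero_mul,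
    mul_im, add_zero, zero_sub]
  ring

theorem summable_of_lower {f : ℤ × ℤ → ℂ} (g : ℤ × ℤ → ℂ) (c α β : ℝ) (hc : 0 < c)
    (hf : ∀ p, ‖f p‖ = Real.exp (-π * (g p).im))
    (h : ∀ p : ℤ × ℤ, c * ((α + p.1) ^ 2 + (β + p.2) ^ 2) ≤ (g p).im) : Summable f := by
  refine Summable.of_norm_bounded (summable_gauss2 (π * c) α β (by positivity)) fun p => ?_
  rw [hf p]
  apply Real.exp_le_exp.2
  have := mul_le_mul_of_nonneg_left (h p) Real.pi_pos.le
  nlinarith

/-! ### The identity -/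

section main

variable (A B C : ℂ) (μ κ r : ℝ)

/-- the original terms -/
noncomputable def F (p : ℤ × ℤ) : ℂ := cexp (π * I * (A * p.1 ^ 2 + 2 * B * p.1 * p.2 + C * p.2 ^ 2) +
      2 * π * I * (μ * p.1 + κ * p.2))

/-- the mixed terms, `p = (j, n)` -/
noncomputable def M (p : ℤ × ℤ) : ℂ :=
  cexp (π * I * (C * p.2 ^ 2 + 2 * κ * p.2 - (B * p.2 + (μ + p.1)) ^ 2 / A))

/-- the dual terms -/
noncomputable def G (p : ℤ × ℤ) : ℂ := cexp (π * I * ((C * (μ + p.1) ^ 2 - 2 * B * (μ + p.1) * (κ + p.2) +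
      A * (κ + p.2) ^ 2) / r ^ 2))

variable {A B C μ κ r}

theorem c_pos (hA : 0 < A.im) (hB : B.im ^ 2 < A.im * C.im) : 0 < C.im := by
  by_contra hc
  push Not at hc
  nlinarith [sq_nonneg B.im, mul_nonneg hA.le (neg_nonneg.2 hc)]

theorem summable_F (hA : 0 < A.im) (hB : B.im ^ 2 < A.im * C.im) : Summable (F A B C μ κ) := by
  have hC := c_pos hA hB
  refine summable_of_lower (fun p => (A * p.1 ^ 2 + 2 * B * p.1 * p.2 + C * p.2 ^ 2) +
      2 * (μ * p.1 + κ * p.2)) ((A.im * C.im - B.im ^ 2) / (A.im + C.im)) 0 0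
      (div_pos (by linarith) (by linarith)) (fun p => ?_) (fun p => ?_)
  · rw [← norm_exp_pi, F]
    congr 2
    ring
  · have := form_lower A.im B.im C.im p.1 p.2 hA hB
    have e : (((A * p.1 ^ 2 + 2 * B * p.1 * p.2 + C * p.2 ^ 2) +
      2 * (μ * p.1 + κ * p.2) : ℂ)).im = A.im * p.1 ^ 2 + 2 * B.im * p.1 * p.2 + C.im * p.2 ^ 2 := by
      have h1 : ∀ z : ℂ, (z * (p.1 : ℂ)).im = z.im * p.1 := fun z => by
        simp
      have h2 : ∀ z : ℂ, (z * (p.2 : ℂ)).im = z.im * p.2 := fun z => by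
        simp
      have h3 : ∀ z : ℂ, (2 * z).im = 2 * z.im := fun z => by simp
      rw [pow_two (p.1 : ℂ), pow_two (p.2 : ℂ), ← mul_assoc, ← mul_assoc]
      simp only [add_im, h1, h2, h3, ofReal_im]
      ring
    simp only [e, zero_add]
    exact this

theorem summable_G (hA : 0 < A.im) (hB : B.im ^ 2 < A.im * C.im) (hr : 0 < r) :
    Summable (G A B C μ κ r) := by
  have hC := c_pos hA hB
  refine summable_of_lower (fun p => ((C * (μ + p.1) ^ 2 - 2 * B * (μ + p.1) * (κ + p.2) +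
      A * (κ + p.2) ^ 2) / r ^ 2)) (((C.im * A.im - (-B.im) ^ 2) / (C.im + A.im)) / r ^ 2) μ κ
      (div_pos (div_pos (by nlinarith) (by linarith)) (by positivity)) (fun p => ?_) (fun p => ?_)
  · rw [← norm_exp_pi, G]
  · have h := form_lower C.im (-B.im) A.im (μ + p.1) (κ + p.2) hC (by nlinarith)
    have e : ((C * (μ + p.1) ^ 2 - 2 * B * (μ + p.1) * (κ + p.2) +
      A * (κ + p.2) ^ 2) / r ^ 2 : ℂ).im = (C.im * (μ + p.1) ^ 2 - 2 * B.im * (μ + p.1) * (κ + p.2) +
        A.im * (κ + p.2) ^ 2) / r ^ 2 := by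
      have h0 : ((r : ℂ) ^ 2) = ((r ^ 2 : ℝ) : ℂ) := by push_cast; ring
      have hj : (μ + p.1 : ℂ) = ((μ + p.1 : ℝ) : ℂ) := by push_cast; ring
      have hk : (κ + p.2 : ℂ) = ((κ + p.2 : ℝ) : ℂ) := by push_cast; ring
      have h1 : ∀ (z : ℂ) (x : ℝ), (z * (x : ℂ)).im = z.im * x := fun z x => Complex.im_mul_ofReal z x
      have h3 : ∀ z : ℂ, (2 * z).im = 2 * z.im := fun z => by simp
      rw [h0, Complex.div_ofReal_im, hj, hk, pow_two ((μ + p.1 : ℝ) : ℂ), pow_two ((κ + p.2 : ℝ) : ℂ),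
        ← mul_assoc, ← mul_assoc]
      simp only [add_im, sub_im, h1, h3]
      ring
    rw [e, div_mul_eq_mul_div]
    apply div_le_div_of_nonneg_right _ (by positivity)
    refine h.trans (le_of_eq ?_)
    ring

theorem summable_M (hA : 0 < A.im) (hB : B.im ^ 2 < A.im * C.im) : Summable (M A B C μ κ) := by
  have hC := c_pos hA hB
  have hA0 : A ≠ 0 := by
    rintro rfl
    simp at hA
  set lam := (A.im * C.im - B.im ^ 2) / (A.im + C.im) with hlam
  have hlam0 : 0 < lam := div_pos (by linarith) (by linarith)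
  have hlamA : lam ≤ A.im := by
    rw [hlam, div_le_iff₀ (by linarith)]
    nlinarith [sq_nonneg B.im, sq_nonneg A.im]
  set K : ℝ := 2 * ‖A‖ ^ 2 + 2 * ‖B‖ ^ 2 + 1 with hK
  have hK0 : 0 < K := by positivity
  refine summable_of_lower (fun p => (C * p.2 ^ 2 + 2 * κ * p.2 - (B * p.2 + (μ + p.1)) ^ 2 / A))
    (lam / K) μ 0 (by positivity) (fun p => ?_) (fun p => ?_)
  · rw [← norm_exp_pi, M]
  · -- the critical point
    set n : ℝ := (p.2 : ℝ) with hn
    set J : ℝ := μ + p.1 with hJ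
    have hnC : (p.2 : ℂ) = (n : ℂ) := by rw [hn]; push_cast; ring
    have hJC : (μ + p.1 : ℂ) = (J : ℂ) := by rw [hJ]; push_cast; ring
    set xs : ℂ := -(B * n + J) / A with hxs
    set u := xs.re with hu
    set v := xs.im with hv
    have hAx : A * xs = -(B * n + J) := by
      rw [hxs]; field_simp
    have hxuv : xs = u + v * I := (Complex.re_add_im xs).symm
    have key : (C * n ^ 2 + 2 * κ * n - (B * n + J) ^ 2 / A : ℂ) =
        (A * (u ^ 2 : ℝ) + B * (2 * n * u : ℝ) + ((2 * J * u : ℝ) : ℂ) + C * (n ^ 2 : ℝ) +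
          ((2 * κ * n : ℝ) : ℂ)) + A * (v ^ 2 : ℝ) := by
      have e1 : (B * n + J) ^ 2 / A = -(B * n + J) * xs := by
        rw [hxs]; ring
      have e2 : (B * n + J : ℂ) = -(A * xs) := by rw [hAx]; ring
      have e3 : (J : ℂ) = -(A * xs) - B * n := by rw [hAx]; ring
      rw [e1]
      push_cast
      have e4 : (A * u ^ 2 + B * (2 * n * u) + 2 * J * u + C * n ^ 2 + 2 * κ * n) + A * v ^ 2 =
        A * u ^ 2 + 2 * u * (B * n + J) + C * n ^ 2 + 2 * κ * n + A * v ^ 2 := by ring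
      rw [e4, e2, hxuv]
      have hI : I ^ 2 = -1 := I_sq
      linear_combination (-(A * v ^ 2)) * hI
    have him : (C * n ^ 2 + 2 * κ * n - (B * n + J) ^ 2 / A : ℂ).im =
        (A.im * u ^ 2 + 2 * B.im * u * n + C.im * n ^ 2) + A.im * v ^ 2 := by
      rw [key]
      simp only [add_im, Complex.im_mul_ofReal, ofReal_im]
      ring
    rw [hnC, hJC, him]
    have h1 := form_lower A.im B.im C.im u n hA hB
    have h2 : lam * (u ^ 2 + n ^ 2) + lam * v ^ 2 ≤
        (A.im * u ^ 2 + 2 * B.im * u * n + C.im * n ^ 2) + A.im * v ^ 2 :=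
      add_le_add h1 (mul_le_mul_of_nonneg_right hlamA (sq_nonneg v))
    have hxn : ‖xs‖ ^ 2 = u ^ 2 + v ^ 2 := by
      rw [← Complex.normSq_eq_norm_sq, Complex.normSq_apply]
      ring
    have hJle : |J| ≤ ‖A‖ * ‖xs‖ + ‖B‖ * |n| := by
      have e3 : (J : ℂ) = -(A * xs) - B * n := by rw [hAx]; ring
      calc |J| = ‖(J : ℂ)‖ := by rw [Complex.norm_real, Real.norm_eq_abs]
        _ = ‖-(A * xs) - B * n‖ := by rw [e3]
        _ ≤ ‖-(A * xs)‖ + ‖B * n‖ := norm_sub_le _ _
        _ = _ := by rw [norm_neg, norm_mul, norm_mul, Complex.norm_real, Real.norm_eq_abs]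
    have hJ2 : J ^ 2 ≤ 2 * (‖A‖ ^ 2 * ‖xs‖ ^ 2) + 2 * (‖B‖ ^ 2 * n ^ 2) := by
      have h3 : |J| ^ 2 ≤ (‖A‖ * ‖xs‖ + ‖B‖ * |n|) ^ 2 :=
        pow_le_pow_left₀ (abs_nonneg _) hJle 2
      rw [sq_abs] at h3
      have h4 : (‖B‖ * |n|) ^ 2 = ‖B‖ ^ 2 * n ^ 2 := by rw [mul_pow, sq_abs]
      nlinarith [sq_nonneg (‖A‖ * ‖xs‖ - ‖B‖ * |n|)]
    have h5 : J ^ 2 + n ^ 2 ≤ K * (u ^ 2 + v ^ 2 + n ^ 2) := by
      rw [← hxn]
      have a1 : 0 ≤ ‖A‖ ^ 2 := by positivity
      have a2 : 0 ≤ ‖B‖ ^ 2 := by positivity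
      have a3 : 0 ≤ ‖xs‖ ^ 2 := by positivity
      have a4 : 0 ≤ n ^ 2 := sq_nonneg _
      rw [hK]
      nlinarith [mul_nonneg a1 a4, mul_nonneg a2 a3]
    have h6 : lam / K * (J ^ 2 + n ^ 2) ≤ lam * (u ^ 2 + v ^ 2 + n ^ 2) := by
      rw [div_mul_eq_mul_div, div_le_iff₀ hK0]
      calc lam * (J ^ 2 + n ^ 2) ≤ lam * (K * (u ^ 2 + v ^ 2 + n ^ 2)) :=
            mul_le_mul_of_nonneg_left h5 hlam0.le
        _ = _ := by ring
    have h7 : (0 + n) = n := zero_add n
    rw [h7]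
    linarith

/-- one-variable Poisson summation -/
theorem poisson1 (z τ : ℂ) (hτ : 0 < τ.im) :
    ∑' m : ℤ, cexp (2 * π * I * m * z + π * I * m ^ 2 * τ) =
      1 / (-I * τ) ^ (1 / 2 : ℂ) * ∑' j : ℤ, cexp (-π * I * (z + j) ^ 2 / τ) := by
  have h := jacobiTheta₂_functional_equation z τ
  have hτ0 : τ ≠ 0 := by
    rintro rfl
    simp at hτ
  unfold jacobiTheta₂ at h
  simp only [jacobiTheta₂_term] at h
  rw [h, mul_assoc, ← tsum_mul_left]
  congr 1
  rw [← (Equiv.neg ℤ).tsum_eq (fun j : ℤ => cexp (-π * I * (z + j) ^ 2 / τ))]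
  refine tsum_congr fun j => ?_
  rw [← Complex.exp_add]
  congr 1
  simp only [Equiv.neg_apply, Int.cast_neg]
  field_simp
  ring

theorem main_identity (hA : 0 < A.im) (hB : B.im ^ 2 < A.im * C.im) (hr : 0 < r)
    (hD : B ^ 2 - A * C = (r : ℂ) ^ 2) :
    ∑' p, G A B C μ κ r p = r * ∑' p, F A B C μ κ p := by
  have hA0 : A ≠ 0 := by
    rintro rfl
    simp at hA
  have hr0 : (r : ℂ) ≠ 0 := by exact_mod_cast hr.ne'
  have sF : Summable (F A B C μ κ) := summable_F hA hB
  have sM : Summable (M A B C μ κ) := summable_M hA hB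
  have sG : Summable (G A B C μ κ r) := summable_G hA hB hr
  set D : ℂ := -(r : ℂ) ^ 2 / A with hDdef
  have hD2 : D = C - B ^ 2 / A := by
    rw [hDdef, ← hD]
    field_simp
    ring
  have hDim : 0 < D.im := by
    have h0 : D = A⁻¹ * ((-(r ^ 2) : ℝ) : ℂ) := by
      rw [hDdef]; push_cast; field_simp
    rw [h0, Complex.im_mul_ofReal, Complex.inv_im]
    have h1 : 0 < normSq A := Complex.normSq_pos.2 hA0
    have h2 : -A.im / normSq A * -(r ^ 2) = A.im * r ^ 2 / normSq A := by ring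
    rw [h2]
    positivity
  have hD0 : D ≠ 0 := by
    intro h
    rw [h] at hDim
    simp at hDim
  -- first step
  have s1 : ∑' p, F A B C μ κ p =
      1 / (-I * A) ^ (1 / 2 : ℂ) * ∑' p, M A B C μ κ p := by
    calc ∑' p, F A B C μ κ p = ∑' (m : ℤ) (n : ℤ), F A B C μ κ (m, n) := sF.tsum_prod
      _ = ∑' (n : ℤ) (m : ℤ), F A B C μ κ (m, n) := by
        exact (Summable.tsum_comm (f := fun m n : ℤ => F A B C μ κ (m, n)) sF).symm
      _ = ∑' (n : ℤ), 1 / (-I * A) ^ (1 / 2 : ℂ) * ∑' (j : ℤ), M A B C μ κ (j, n) := by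
        refine tsum_congr fun n => ?_
        have h1 : ∀ m : ℤ, F A B C μ κ (m, n) = cexp (π * I * (C * n ^ 2 + 2 * κ * n)) *
            cexp (2 * π * I * m * (B * n + μ) + π * I * m ^ 2 * A) := by
          intro m
          rw [F, ← Complex.exp_add]
          congr 1
          ring
        simp only [h1]
        rw [tsum_mul_left, poisson1 _ _ hA, ← mul_assoc, mul_comm (cexp _) (1 / _), mul_assoc,
          ← tsum_mul_left]
        congr 1
        refine tsum_congr fun j => ?_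
        rw [M, ← Complex.exp_add]
        congr 1
        field_simp
        ring
      _ = 1 / (-I * A) ^ (1 / 2 : ℂ) * ∑' (n : ℤ) (j : ℤ), M A B C μ κ (j, n) := by
        rw [tsum_mul_left]
      _ = 1 / (-I * A) ^ (1 / 2 : ℂ) * ∑' (j : ℤ) (n : ℤ), M A B C μ κ (j, n) := by
        rw [Summable.tsum_comm (f := fun j n : ℤ => M A B C μ κ (j, n)) sM]
      _ = _ := by rw [sM.tsum_prod]
  -- second step
  have s2 : ∑' p, M A B C μ κ p =
      1 / (-I * D) ^ (1 / 2 : ℂ) * ∑' p, G A B C μ κ r p := by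
    calc ∑' p, M A B C μ κ p = ∑' (j : ℤ) (n : ℤ), M A B C μ κ (j, n) := sM.tsum_prod
      _ = ∑' (j : ℤ), 1 / (-I * D) ^ (1 / 2 : ℂ) * ∑' (l : ℤ), G A B C μ κ r (j, l) := by
        refine tsum_congr fun j => ?_
        have h1 : ∀ n : ℤ, M A B C μ κ (j, n) = cexp (-(π * I * (μ + j) ^ 2 / A)) *
            cexp (2 * π * I * n * (κ - B * (μ + j) / A) + π * I * n ^ 2 * D) := by
          intro n
          rw [M, ← Complex.exp_add, hD2]
          congr 1
          simp only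
          field_simp
          ring
        simp only [h1]
        rw [tsum_mul_left, poisson1 _ _ hDim, ← mul_assoc, mul_comm (cexp _) (1 / _), mul_assoc,
          ← tsum_mul_left]
        congr 1
        refine tsum_congr fun l => ?_
        rw [G, ← Complex.exp_add]
        congr 1
        simp only
        have e : -π * I * (κ - B * (μ + j) / A + l) ^ 2 / D =
            π * I * ((κ - B * (μ + j) / A + l) ^ 2 * A / r ^ 2) := by
          rw [hDdef]
          field_simp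
        have hC : C = (B ^ 2 - (r : ℂ) ^ 2) / A := by
          rw [← hD]
          field_simp
          ring
        rw [e, hC]
        field_simp
        ring
      _ = 1 / (-I * D) ^ (1 / 2 : ℂ) * ∑' (j : ℤ) (l : ℤ), G A B C μ κ r (j, l) := by
        rw [tsum_mul_left]
      _ = _ := by rw [sG.tsum_prod]
  -- the constants
  have s3 : (-I * A) ^ (1 / 2 : ℂ) * (-I * D) ^ (1 / 2 : ℂ) = r := by
    have hz0 : -I * A ≠ 0 := mul_ne_zero (neg_ne_zero.2 Complex.I_ne_zero) hA0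
    have hw0 : -I * D ≠ 0 := mul_ne_zero (neg_ne_zero.2 Complex.I_ne_zero) hD0
    have hzre : 0 < (-I * A).re := by
      simpa using hA
    have harg : (-I * A).arg ≠ π := by
      intro h
      rw [Complex.arg_eq_pi_iff] at h
      linarith [h.1]
    have hw : -I * D = ((r ^ 2 : ℝ) : ℂ) * (-I * A)⁻¹ := by
      rw [hDdef]
      have hI : I ≠ 0 := Complex.I_ne_zero
      have hII : I * I = -1 := Complex.I_mul_I
      push_cast
      field_simp
      linear_combination hII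
    rw [Complex.cpow_def_of_ne_zero hz0, Complex.cpow_def_of_ne_zero hw0, ← Complex.exp_add, hw,
      Complex.log_ofReal_mul (by positivity) (inv_ne_zero hz0), Complex.log_inv _ harg]
    have e : log (-I * A) * (1 / 2) + (((Real.log (r ^ 2) : ℝ) : ℂ) + -log (-I * A)) * (1 / 2) =
        ((Real.log r : ℝ) : ℂ) := by
      rw [Real.log_pow]
      push_cast
      ring
    rw [e, ← Complex.ofReal_exp, Real.exp_log hr]
  have hab : (-I * A) ^ (1 / 2 : ℂ) * (-I * D) ^ (1 / 2 : ℂ) ≠ 0 := by rw [s3]; exact hr0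
  have ha := left_ne_zero_of_mul hab
  have hb := right_ne_zero_of_mul hab
  have e : ∀ S : ℂ, r * (1 / (-I * A) ^ (1 / 2 : ℂ) * (1 / (-I * D) ^ (1 / 2 : ℂ) * S)) =
      r / ((-I * A) ^ (1 / 2 : ℂ) * (-I * D) ^ (1 / 2 : ℂ)) * S := fun S => by
    field_simp
  rw [s1, s2, e, s3, div_self hr0, one_mul]

end main

theorem poisson2 : Poisson2 := by
  intro A B C μ κ r hA hB hr hD
  have h := main_identity (μ := μ) (κ := κ) hA hB hr hD
  have hs := (summable_G (μ := μ) (κ := κ) hA hB hr).hasSum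
  rw [h] at hs
  exact hs

end Pool.Agent.TH772.J692
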