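import Pool.Agent.TH625.GM.Props

/-!
# GM-TWIST (job 697 for helper625, MP_17f4cb_nt)

Functional equation of the theta series twisted by a primitive quadratic character modulo `m`,
`(m, 5) = 1`.
-/

set_option autoImplicit false

open Complex MeasureTheory
open scoped Real MatrixGroups

namespace Pool.Agent.TH772.J697

open Pool.Agent.TH625.GM

/-! ### The characters modulo 5 -/

theorem all5 : ∀ a : ZMod 5, a = 0 ∨ a = 1 ∨ a = 2 ∨ a = 3 ∨ a = 4 := by decide

theorem om0 : om 0 = 0 := rfl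
theorem om1 : om 1 = 1 := rfl
theorem om2 : om 2 = I := rfl
theorem om3 : om 3 = -I := rfl
theorem om4 : om 4 = -1 := rfl

theorem om_mul (a b : ZMod 5) : om (a * b) = om a * om b := by
  have e22 : (2 * 2 : ZMod 5) = 4 := by decide
  have e23 : (2 * 3 : ZMod 5) = 1 := by decide
  have e24 : (2 * 4 : ZMod 5) = 3 := by decide
  have e32 : (3 * 2 : ZMod 5) = 1 := by decide
  have e33 : (3 * 3 : ZMod 5) = 4 := by decide
  have e34 : (3 * 4 : ZMod 5) = 2 := by decide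
  have e42 : (4 * 2 : ZMod 5) = 3 := by decide
  have e43 : (4 * 3 : ZMod 5) = 2 := by decide
  have e44 : (4 * 4 : ZMod 5) = 1 := by decide
  rcases all5 a with rfl | rfl | rfl | rfl | rfl <;>
  rcases all5 b with rfl | rfl | rfl | rfl | rfl <;>
  simp only [zero_mul, mul_zero, one_mul, mul_one, e22, e23, e24, e32, e33, e34, e42, e43, e44,
    om0, om1, om2, om3, om4, I_mul_I, neg_mul, mul_neg, neg_neg, neg_zero]

theorem chi5_mul : ∀ a b : ZMod 5, chi5 (a * b) = chi5 a * chi5 b := by decide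
theorem chi5_neg : ∀ a : ZMod 5, chi5 (-a) = chi5 a := by decide

theorem om_sq (a : ZMod 5) : om (a ^ 2) = (chi5 a : ℂ) := by
  have e0 : (0 ^ 2 : ZMod 5) = 0 := by decide
  have e1 : (1 ^ 2 : ZMod 5) = 1 := by decide
  have e2 : (2 ^ 2 : ZMod 5) = 4 := by decide
  have e3 : (3 ^ 2 : ZMod 5) = 4 := by decide
  have e4 : (4 ^ 2 : ZMod 5) = 1 := by decide
  have c0 : chi5 0 = 0 := rfl
  have c1 : chi5 1 = 1 := rfl
  have c2 : chi5 2 = -1 := rfl
  have c3 : chi5 3 = -1 := rfl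
  have c4 : chi5 4 = 1 := rfl
  rcases all5 a with rfl | rfl | rfl | rfl | rfl <;>
  simp only [e0, e1, e2, e3, e4, om0, om1, om4, c0, c1, c2, c3, c4, Int.cast_zero, Int.cast_one,
    Int.cast_neg]

/-- the conjugate of `om` as a Dirichlet character -/
noncomputable def psi : DirichletCharacter ℂ 5 where
  toFun j := (starRingEnd ℂ) (om j)
  map_one' := by rw [om1, map_one]
  map_mul' := fun a b => by rw [om_mul, map_mul]
  map_nonunit' := fun a ha => by
    rcases all5 a with rfl | rfl | rfl | rfl | rfl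
    · rw [om0, map_zero]
    · exact absurd isUnit_one ha
    · exact absurd (by decide) ha
    · exact absurd (by decide) ha
    · exact absurd (by decide) ha

theorem psi_apply (a : ZMod 5) : psi a = (starRingEnd ℂ) (om a) := rfl

theorem psi_inv (a : ZMod 5) : psi⁻¹ a = om a := by
  rw [MulChar.inv_apply_eq_inv', psi_apply]
  rcases all5 a with rfl | rfl | rfl | rfl | rfl
  · simp [om0]
  · simp [om1]
  · rw [om2, conj_I, inv_neg, inv_I, neg_neg]
  · rw [om3, map_neg, conj_I, neg_neg, inv_I]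
  · simp [om4]

theorem psi_prim : psi.IsPrimitive := by
  rw [DirichletCharacter.isPrimitive_def]
  have h := DirichletCharacter.conductor_dvd_level psi
  rcases (Nat.dvd_prime (by norm_num : Nat.Prime 5)).1 h with h | h
  · exfalso
    rw [← DirichletCharacter.eq_one_iff_conductor_eq_one] at h
    have h2 : psi 2 = 1 := by
      rw [h]
      exact MulChar.one_apply (by decide)
    rw [psi_apply, om2, conj_I] at h2
    have := congrArg Complex.re h2
    simp at this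
  · exact h

/-! ### Gauss sums -/

theorem gauss_ne {N : ℕ} [NeZero N] {χ : DirichletCharacter ℂ N} (hχ : χ.IsPrimitive) :
    gaussSum χ ZMod.stdAddChar ≠ 0 := by
  intro h
  have h1 : ZMod.dft (χ : ZMod N → ℂ) = 0 := by
    funext k
    rw [hχ.fourierTransform_eq_inv_mul_gaussSum, h, mul_zero]
    rfl
  have h2 : (χ : ZMod N → ℂ) = 0 := (LinearEquiv.map_eq_zero_iff _).1 h1
  have h3 := congrFun h2 1
  simp at h3

theorem gauss_sum {N : ℕ} [NeZero N] {χ : DirichletCharacter ℂ N} (hχ : χ.IsPrimitive)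
    (a : ZMod N) :
    ∑ b, χ b * ZMod.stdAddChar (b * a) = χ⁻¹ a * gaussSum χ ZMod.stdAddChar := by
  rw [← gaussSum_mulShift_of_isPrimitive _ hχ]
  simp only [gaussSum, AddChar.mulShift_apply, mul_comm a]

/-! ### The shifts -/

/-- the shift attached to a pair of residues -/
noncomputable def rr (m : ℕ) (b1 : ZMod m) (b2 : ZMod 5) : ℝ :=
  (b1.val : ℝ) / m + (b2.val : ℝ) / 5

theorem exp_rr (m : ℕ) [NeZero m] (b1 : ZMod m) (b2 : ZMod 5) (n : ℤ) :
    cexp (2 * π * I * rr m b1 b2 * n) =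
      ZMod.stdAddChar (b1 * (n : ZMod m)) * ZMod.stdAddChar (b2 * (n : ZMod 5)) := by
  have h1 : b1 * (n : ZMod m) = (((b1.val : ℤ) * n : ℤ) : ZMod m) := by
    push_cast; rw [ZMod.natCast_zmod_val]
  have h2 : b2 * (n : ZMod 5) = (((b2.val : ℤ) * n : ℤ) : ZMod 5) := by
    push_cast; rw [ZMod.natCast_zmod_val]
  have hm : (m : ℂ) ≠ 0 := by exact_mod_cast NeZero.ne m
  rw [h1, h2, ZMod.stdAddChar_coe, ZMod.stdAddChar_coe, ← Complex.exp_add]
  congr 1
  rw [rr]
  push_cast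
  field_simp

theorem nm_rs (b : ℤ × ℤ) : ((nm b : ℤ) : ZMod 5) = rs b ^ 2 := by
  unfold nm rs
  push_cast
  have h : ∀ u v : ZMod 5, u ^ 2 + u * v - v ^ 2 = (u + 3 * v) ^ 2 := by decide
  exact h _ _

/-- the term of the theta series -/
noncomputable def term (s x y : ℝ) (b : ℤ × ℤ) : ℂ :=
  cexp (((-(π * y * maj s b) : ℝ) : ℂ) + ((2 * π * x * nm b : ℝ) : ℂ) * I)

theorem term_shift (s x y r : ℝ) (b : ℤ × ℤ) :
    term s (x + r) y b = cexp (2 * π * I * r * nm b) * term s x y b := by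
  rw [term, term, ← Complex.exp_add]
  congr 1
  push_cast
  ring

theorem norm_exp_rr (r : ℝ) (n : ℤ) : ‖cexp (2 * π * I * r * n)‖ = 1 := by
  have : (2 * π * I * r * n : ℂ) = ((2 * π * r * n : ℝ) : ℂ) * I := by push_cast; ring
  rw [this, Complex.norm_exp_ofReal_mul_I]

theorem twsum (hs : ThSummable) (m : ℕ) [NeZero m] {χ : DirichletCharacter ℂ m}
    (hχ : χ.IsPrimitive) (h2 : χ ^ 2 = 1) (s x y : ℝ) (hy : 0 < y) :
    ∑ b : ZMod m × ZMod 5, χ b.1 * psi b.2 * Th (fun _ => 1) s (x + rr m b.1 b.2) y =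
      gaussSum χ ZMod.stdAddChar * gaussSum psi ZMod.stdAddChar *
        Th (fun b => (h5 b : ℂ) * χ (nm b : ZMod m)) s x y := by
  have hinv : χ⁻¹ = χ := by
    rw [pow_two] at h2
    exact inv_eq_of_mul_eq_one_left h2
  have hsum : ∀ b : ZMod m × ZMod 5,
      Summable (fun β : ℤ × ℤ => cexp (2 * π * I * rr m b.1 b.2 * nm β) * term s x y β) := by
    intro b
    exact hs (fun β => cexp (2 * π * I * rr m b.1 b.2 * nm β)) 0 1 (fun β => by
      rw [norm_exp_rr, pow_zero, mul_one]) s x y hy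
  have h1 : ∀ b : ZMod m × ZMod 5, χ b.1 * psi b.2 * Th (fun _ => 1) s (x + rr m b.1 b.2) y =
      ∑' β : ℤ × ℤ, χ b.1 * psi b.2 * (cexp (2 * π * I * rr m b.1 b.2 * nm β) * term s x y β) := by
    intro b
    rw [tsum_mul_left]
    congr 1
    rw [Th]
    refine tsum_congr fun β => ?_
    rw [one_mul, ← term_shift]
    rfl
  simp only [h1]
  rw [← Summable.tsum_finsetSum (fun b _ => (hsum b).mul_left _), Th, ← tsum_mul_left]
  refine tsum_congr fun β => ?_
  have h3 : ∑ b : ZMod m × ZMod 5,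
      χ b.1 * psi b.2 * (cexp (2 * π * I * rr m b.1 b.2 * nm β) * term s x y β) =
      (∑ b1 : ZMod m, χ b1 * ZMod.stdAddChar (b1 * ((nm β : ℤ) : ZMod m))) *
      (∑ b2 : ZMod 5, psi b2 * ZMod.stdAddChar (b2 * ((nm β : ℤ) : ZMod 5))) * term s x y β := by
    rw [Finset.sum_mul_sum, Finset.sum_mul, Fintype.sum_prod_type]
    refine Finset.sum_congr rfl fun b1 _ => ?_
    rw [Finset.sum_mul]
    refine Finset.sum_congr rfl fun b2 _ => ?_
    rw [exp_rr]
    ring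
  rw [h3, gauss_sum hχ, gauss_sum psi_prim, hinv, psi_inv, nm_rs, om_sq]
  show _ = _ * (((h5 β : ℂ) * χ (nm β : ZMod m)) * term s x y β)
  rw [h5]
  ring

/-! ### The modular transformation -/

theorem modular (h1 : LawOne) (h2 : LawSL2) (m : ℕ) [NeZero m] (hm : m.Coprime 5)
    (b1 c1 : ZMod m) (b2 c2 : ZMod 5) (hb1 : 25 * b1 * c1 = -1) (hb2 : (m : ZMod 5) ^ 2 * b2 * c2 = -1)
    (s x y : ℝ) (hy : 0 < y) :
    (Real.sqrt (y / (25 * m ^ 2 * (x ^ 2 + y ^ 2))) : ℂ) *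
      Th (fun _ => 1) s (-x / (25 * m ^ 2 * (x ^ 2 + y ^ 2)) + rr m c1 c2)
        (y / (25 * m ^ 2 * (x ^ 2 + y ^ 2))) =
      (chi5 ((m : ZMod 5) * b2) : ℂ) * ((Real.sqrt y : ℂ) * Th (fun _ => 1) s (x + rr m b1 b2) y) := by
  set b : ℤ := 5 * b1.val + m * b2.val with hb
  set c : ℤ := 5 * c1.val + m * c2.val with hc
  have hm0 : (m : ℝ) ≠ 0 := by exact_mod_cast NeZero.ne m
  have hmpos : (0 : ℝ) < m := by exact_mod_cast Nat.pos_of_ne_zero (NeZero.ne m)
  have d1 : (m : ℤ) ∣ b * c + 1 := by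
    rw [← ZMod.intCast_zmod_eq_zero_iff_dvd]
    rw [hb, hc]
    push_cast
    rw [ZMod.natCast_self, ZMod.natCast_zmod_val, ZMod.natCast_zmod_val]
    linear_combination hb1
  have d2 : ((5 : ℕ) : ℤ) ∣ b * c + 1 := by
    rw [← ZMod.intCast_zmod_eq_zero_iff_dvd]
    rw [hb, hc]
    push_cast
    have h5 : (5 : ZMod 5) = 0 := by decide
    rw [h5, ZMod.natCast_zmod_val, ZMod.natCast_zmod_val]
    linear_combination hb2
  have hcop : IsCoprime ((5 : ℕ) : ℤ) (m : ℤ) := by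
    rw [Nat.isCoprime_iff_coprime]
    exact hm.symm
  obtain ⟨d, hd⟩ := hcop.mul_dvd d2 d1
  have hd' : b * c + 1 = 5 * m * d := by
    rw [hd]; push_cast; ring
  let g : SL(2, ℤ) := ⟨!![c, -d; 5 * m, -b], by
    rw [Matrix.det_fin_two_of]; linarith⟩
  have g00 : g 0 0 = c := rfl
  have g01 : g 0 1 = -d := rfl
  have g10 : g 1 0 = 5 * m := rfl
  have g11 : g 1 1 = -b := rfl
  have hN : 0 < x ^ 2 + y ^ 2 := by positivity
  have hys : 0 < y / (25 * m ^ 2 * (x ^ 2 + y ^ 2)) := by positivity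
  let z : UpperHalfPlane := ⟨((x + rr m b1 b2 : ℝ) : ℂ) + (y : ℂ) * I, by simpa using hy⟩
  let z' : UpperHalfPlane :=
    ⟨((-x / (25 * m ^ 2 * (x ^ 2 + y ^ 2)) + rr m c1 c2 : ℝ) : ℂ) +
      ((y / (25 * m ^ 2 * (x ^ 2 + y ^ 2)) : ℝ) : ℂ) * I, by
        rw [Complex.add_im, Complex.im_ofReal_mul, Complex.I_im, mul_one, Complex.ofReal_im, zero_add]
        exact hys⟩
  have zre : z.re = x + rr m b1 b2 := by
    show (((x + rr m b1 b2 : ℝ) : ℂ) + (y : ℂ) * I).re = _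
    simp
  have zim : z.im = y := by
    show (((x + rr m b1 b2 : ℝ) : ℂ) + (y : ℂ) * I).im = _
    simp
  have zre' : z'.re = -x / (25 * m ^ 2 * (x ^ 2 + y ^ 2)) + rr m c1 c2 := by
    show (((-x / (25 * m ^ 2 * (x ^ 2 + y ^ 2)) + rr m c1 c2 : ℝ) : ℂ) +
      ((y / (25 * m ^ 2 * (x ^ 2 + y ^ 2)) : ℝ) : ℂ) * I).re = _
    rw [Complex.add_re, Complex.re_ofReal_mul, Complex.I_re, mul_zero, add_zero, Complex.ofReal_re]
  have zim' : z'.im = y / (25 * m ^ 2 * (x ^ 2 + y ^ 2)) := by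
    show (((-x / (25 * m ^ 2 * (x ^ 2 + y ^ 2)) + rr m c1 c2 : ℝ) : ℂ) +
      ((y / (25 * m ^ 2 * (x ^ 2 + y ^ 2)) : ℝ) : ℂ) * I).im = _
    rw [Complex.add_im, Complex.im_ofReal_mul, Complex.I_im, mul_one, Complex.ofReal_im, zero_add]
  have hbr : rr m b1 b2 = b / (5 * m) := by
    rw [rr, hb]; push_cast; field_simp
  have hcr : rr m c1 c2 = c / (5 * m) := by
    rw [rr, hc]; push_cast; field_simp
  have hgz : g • z = z' := by
    apply UpperHalfPlane.ext
    rw [UpperHalfPlane.coe_specialLinearGroup_apply, g00, g01, g10, g11]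
    show (((algebraMap ℤ ℝ c : ℝ) : ℂ) * (((x + rr m b1 b2 : ℝ) : ℂ) + (y : ℂ) * I) +
        ((algebraMap ℤ ℝ (-d) : ℝ) : ℂ)) /
      (((algebraMap ℤ ℝ (5 * m) : ℝ) : ℂ) * (((x + rr m b1 b2 : ℝ) : ℂ) + (y : ℂ) * I) +
        ((algebraMap ℤ ℝ (-b) : ℝ) : ℂ)) =
      ((-x / (25 * m ^ 2 * (x ^ 2 + y ^ 2)) + rr m c1 c2 : ℝ) : ℂ) +
      ((y / (25 * m ^ 2 * (x ^ 2 + y ^ 2)) : ℝ) : ℂ) * I
    have hw : (x : ℂ) + y * I ≠ 0 := by
      intro h
      have := congrArg Complex.im h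
      simp at this
      exact hy.ne' this
    have hw' : (x : ℂ) - y * I ≠ 0 := by
      intro h
      have := congrArg Complex.im h
      simp at this
      exact hy.ne' this
    have hww : ((x : ℂ) ^ 2 + y ^ 2) = (x + y * I) * (x - y * I) := by
      have hI : I ^ 2 = -1 := I_sq
      linear_combination ((y : ℂ) ^ 2) * hI
    have hmC : (m : ℂ) ≠ 0 := by exact_mod_cast hm0
    have hdC : (b : ℂ) * c + 1 = 5 * m * d := by exact_mod_cast hd'
    rw [hbr, hcr]
    simp only [algebraMap_int_eq, eq_intCast]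
    push_cast
    rw [hww]
    have e1 : 5 * (m : ℂ) * ((x : ℂ) + b / (5 * m) + y * I) + -b = 5 * m * (x + y * I) := by
      field_simp
      ring
    have e2 : (c : ℂ) * ((x : ℂ) + b / (5 * m) + y * I) + -d = c * (x + y * I) - 1 / (5 * m) := by
      field_simp
      linear_combination hdC
    rw [e1, e2]
    field_simp
    ring
  have hE := h2.dvd s g z (by rw [g10]; push_cast; rw [show (5 : ZMod 5) = 0 by decide, zero_mul])
  rw [← h1, ← h1, hgz, g11] at hE
  have hchi : chi5 ((-b : ℤ) : ZMod 5) = chi5 ((m : ZMod 5) * b2) := by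
    rw [Int.cast_neg, chi5_neg, hb]
    push_cast
    rw [ZMod.natCast_zmod_val, show (5 : ZMod 5) = 0 by decide, zero_mul, zero_add]
  rw [hchi] at hE
  unfold E at hE
  rw [zre, zim, zre', zim'] at hE
  exact hE

/-! ### Reindexing -/

theorem sum_units {M : Type} [CommMonoid M] [Fintype M] [DecidableEq M] [Fintype Mˣ] (f : M → ℂ)
    (hf : ∀ b, ¬ IsUnit b → f b = 0) : ∑ b, f b = ∑ u : Mˣ, f u := by
  symm
  apply Finset.sum_of_injOn (fun u : Mˣ => (u : M))
  · intro a _ b _ h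
    exact Units.ext h
  · intro a _
    exact Finset.mem_coe.2 (Finset.mem_univ _)
  · intro i _ hi
    apply hf
    rintro ⟨u, rfl⟩
    exact hi ⟨u, Finset.mem_coe.2 (Finset.mem_univ _), rfl⟩
  · intro i _
    rfl

/-- the bijection `u ↦ -(k u)⁻¹` of the units -/
def sg {G : Type} [CommRing G] (k : Gˣ) : Gˣ ≃ Gˣ :=
  (Equiv.mulLeft k).trans ((Equiv.inv _).trans (Equiv.neg _))

theorem sg_apply {G : Type} [CommRing G] (k u : Gˣ) : sg k u = -(k * u)⁻¹ := rfl

theorem twist (hs : ThSummable) (h1 : LawOne) (h2 : LawSL2) : Twist := by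
  intro m _ hm χ hχ hχ2 s x y hy
  classical
  set K : ℂ := gaussSum χ ZMod.stdAddChar * gaussSum psi ZMod.stdAddChar with hK
  have hK0 : K ≠ 0 := mul_ne_zero (gauss_ne hχ) (gauss_ne psi_prim)
  have hN : 0 < x ^ 2 + y ^ 2 := by positivity
  have hmpos : (0 : ℝ) < m := by exact_mod_cast Nat.pos_of_ne_zero (NeZero.ne m)
  set xs : ℝ := -x / (25 * m ^ 2 * (x ^ 2 + y ^ 2)) with hxs
  set ys : ℝ := y / (25 * m ^ 2 * (x ^ 2 + y ^ 2)) with hys
  have hys0 : 0 < ys := by positivity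
  set TF : ℝ → ℝ → ℂ := fun x y => Th (fun b => (h5 b : ℂ) * χ (nm b : ZMod m)) s x y with hTF
  have hA := twsum hs m hχ hχ2 s xs ys hys0
  have hB := twsum hs m hχ hχ2 s x y hy
  rw [← hK] at hA hB
  -- units
  let k1 : (ZMod m)ˣ := (ZMod.unitOfCoprime 5 hm.symm) ^ 2
  let k2 : (ZMod 5)ˣ := (ZMod.unitOfCoprime m hm) ^ 2
  have hk1 : (k1 : ZMod m) = 25 := by
    show (((ZMod.unitOfCoprime 5 hm.symm) ^ 2 : (ZMod m)ˣ) : ZMod m) = 25
    rw [Units.val_pow_eq_pow_val, ZMod.coe_unitOfCoprime]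
    norm_num
  have hk2 : (k2 : ZMod 5) = (m : ZMod 5) ^ 2 := by
    show (((ZMod.unitOfCoprime m hm) ^ 2 : (ZMod 5)ˣ) : ZMod 5) = _
    rw [Units.val_pow_eq_pow_val, ZMod.coe_unitOfCoprime]
  -- general reduction to units
  have hunits : ∀ f : ZMod m → ZMod 5 → ℂ, ∑ b : ZMod m × ZMod 5, χ b.1 * psi b.2 * f b.1 b.2 =
      ∑ u1 : (ZMod m)ˣ, ∑ u2 : (ZMod 5)ˣ, χ u1 * psi u2 * f u1 u2 := by
    intro f
    rw [Fintype.sum_prod_type]
    rw [sum_units (fun b1 : ZMod m => ∑ b2 : ZMod 5, χ b1 * psi b2 * f b1 b2) (fun b hb => by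
      simp only [MulChar.map_nonunit _ hb, zero_mul, Finset.sum_const_zero])]
    refine Finset.sum_congr rfl fun u1 _ => ?_
    rw [sum_units (fun b2 : ZMod 5 => χ (u1 : ZMod m) * psi b2 * f u1 b2) (fun b hb => by
      simp only [MulChar.map_nonunit _ hb, mul_zero, zero_mul])]
  have hsq : ∀ u : (ZMod m)ˣ, χ (u : ZMod m) * χ (u : ZMod m) = 1 := by
    intro u
    have h := congrArg (fun f : DirichletCharacter ℂ m => f (u : ZMod m)) hχ2
    simp only [pow_two, MulChar.mul_apply, MulChar.one_apply_coe] at h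
    exact h
  have hinvχ : ∀ u : (ZMod m)ˣ, χ ((u⁻¹ : (ZMod m)ˣ) : ZMod m) = χ (u : ZMod m) := by
    intro u
    have h3 : χ ((u⁻¹ : (ZMod m)ˣ) : ZMod m) * χ (u : ZMod m) = 1 := by
      rw [← map_mul, Units.inv_mul, map_one]
    have h4 := hsq u
    have h5 : χ (u : ZMod m) ≠ 0 := by
      intro h
      rw [h, mul_zero] at h4
      exact zero_ne_one h4
    exact mul_right_cancel₀ h5 (h3.trans h4.symm)
  -- the value of the weights
  have w1 : ∀ u : (ZMod m)ˣ, χ ((sg k1 u : (ZMod m)ˣ) : ZMod m) = χ (-1) * χ (u : ZMod m) := by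
    intro u
    rw [sg_apply, Units.val_neg, ← neg_one_mul, map_mul, hinvχ, Units.val_mul, map_mul]
    have : χ (k1 : ZMod m) = 1 := by
      show χ (((ZMod.unitOfCoprime 5 hm.symm) ^ 2 : (ZMod m)ˣ) : ZMod m) = 1
      rw [Units.val_pow_eq_pow_val, map_pow, pow_two, hsq]
    rw [this, one_mul]
  have w2 : ∀ u : (ZMod 5)ˣ, psi ((sg k2 u : (ZMod 5)ˣ) : ZMod 5) *
      (chi5 ((m : ZMod 5) * (u : ZMod 5)) : ℂ) = -psi (u : ZMod 5) := by
    intro u
    have e1 : psi ((sg k2 u : (ZMod 5)ˣ) : ZMod 5) = -(om ((m : ZMod 5) ^ 2) * om u) := by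
      rw [sg_apply, Units.val_neg, ← neg_one_mul, map_mul]
      have e2 : psi (-1) = -1 := by
        have : (-1 : ZMod 5) = 4 := by decide
        rw [this, psi_apply, om4]
        simp
      have e3 : psi (((k2 * u)⁻¹ : (ZMod 5)ˣ) : ZMod 5) = psi⁻¹ ((k2 * u : (ZMod 5)ˣ) : ZMod 5) := by
        rw [MulChar.inv_apply_eq_inv']
        apply eq_inv_of_mul_eq_one_left
        rw [← map_mul, Units.inv_mul, map_one]
      rw [e2, e3, psi_inv, Units.val_mul, hk2, om_mul]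
      ring
    rw [e1, chi5_mul, om_sq]
    push_cast
    have hm5 : (chi5 (m : ZMod 5) : ℂ) * (chi5 (m : ZMod 5) : ℂ) = 1 := by
      have hu : IsUnit (m : ZMod 5) := by
        have := (ZMod.unitOfCoprime m hm).isUnit
        rwa [ZMod.coe_unitOfCoprime] at this
      have h6 : ∀ a : ZMod 5, IsUnit a → chi5 a * chi5 a = 1 := by decide
      exact_mod_cast h6 _ hu
    have h7 : ∀ a : ZMod 5, om a * (chi5 a : ℂ) = psi a := by
      intro a
      rw [psi_apply, ← om_sq, pow_two, om_mul]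
      rcases all5 a with rfl | rfl | rfl | rfl | rfl
      · simp [om0]
      · simp [om1]
      · rw [om2, conj_I, I_mul_I]; ring
      · rw [om3, map_neg, conj_I]
        have := I_mul_I
        linear_combination (-I) * this
      · simp [om4]
    rw [← h7]
    linear_combination (-(om (u : ZMod 5)) * (chi5 (u : ZMod 5) : ℂ)) * hm5
  -- main computation
  have hmain : (Real.sqrt ys : ℂ) * (K * TF xs ys) = -χ (-1) * ((Real.sqrt y : ℂ) * (K * TF x y)) := by
    rw [hTF]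
    simp only
    rw [← hA, ← hB, hunits (fun b1 b2 => Th (fun _ => 1) s (xs + rr m b1 b2) ys),
      hunits (fun b1 b2 => Th (fun _ => 1) s (x + rr m b1 b2) y)]
    rw [← (sg k1).sum_comp]
    rw [Finset.mul_sum, Finset.mul_sum, Finset.mul_sum]
    refine Finset.sum_congr rfl fun u1 _ => ?_
    rw [← (sg k2).sum_comp]
    rw [Finset.mul_sum, Finset.mul_sum, Finset.mul_sum]
    refine Finset.sum_congr rfl fun u2 _ => ?_
    have hmod := modular h1 h2 m hm (u1 : ZMod m) ((sg k1 u1 : (ZMod m)ˣ) : ZMod m) (u2 : ZMod 5)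
      ((sg k2 u2 : (ZMod 5)ˣ) : ZMod 5) (by
        rw [← hk1, ← Units.val_mul, sg_apply, Units.val_neg, mul_neg, Units.mul_inv]) (by
        rw [← hk2, ← Units.val_mul, sg_apply, Units.val_neg, mul_neg, Units.mul_inv]) s x y hy
    rw [← hxs, ← hys] at hmod
    calc (Real.sqrt ys : ℂ) * (χ ((sg k1 u1 : (ZMod m)ˣ) : ZMod m) *
          psi ((sg k2 u2 : (ZMod 5)ˣ) : ZMod 5) *
          Th (fun _ => 1) s (xs + rr m ((sg k1 u1 : (ZMod m)ˣ) : ZMod m)
            ((sg k2 u2 : (ZMod 5)ˣ) : ZMod 5)) ys) =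
        χ ((sg k1 u1 : (ZMod m)ˣ) : ZMod m) * psi ((sg k2 u2 : (ZMod 5)ˣ) : ZMod 5) *
          ((Real.sqrt ys : ℂ) * Th (fun _ => 1) s (xs + rr m ((sg k1 u1 : (ZMod m)ˣ) : ZMod m)
            ((sg k2 u2 : (ZMod 5)ˣ) : ZMod 5)) ys) := by ring
      _ = χ ((sg k1 u1 : (ZMod m)ˣ) : ZMod m) * (psi ((sg k2 u2 : (ZMod 5)ˣ) : ZMod 5) *
          (chi5 ((m : ZMod 5) * (u2 : ZMod 5)) : ℂ)) *
          ((Real.sqrt y : ℂ) * Th (fun _ => 1) s (x + rr m (u1 : ZMod m) (u2 : ZMod 5)) y) := by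
        rw [hmod]; ring
      _ = _ := by
        rw [w1, w2]; ring
  have h9 : K * ((Real.sqrt ys : ℂ) * TF xs ys) = K * (-χ (-1) * ((Real.sqrt y : ℂ) * TF x y)) := by
    linear_combination hmain
  exact mul_left_cancel₀ hK0 h9

end Pool.Agent.TH772.J697
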